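import Pool.Agent.H95.CMC.Targets

/-!
# The metric and the norm of a lattice (QNL)
-/

set_option autoImplicit false
set_option linter.unusedVariables false

open MeasureTheory Set Filter NumberField
open scoped Real nonZeroDivisors

namespace Pool.Agent.H36.CMC

open Pool.Agent.H65.CM4 Pool.Agent.H65.CMC Pool.Agent.H95.CMC
open Pool.Agent.H95.CM (lin lin_add lin_smul Nr mem_Nr un T_IXL T_NTP T_QNV)

theorem pf_QNL (hCVL : T_CVL) (hNTP : T_NTP) (hQNV : T_QNV) (hIXL : T_IXL) : T_QNL := by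
  intro k K _ _ _ _ _ _ _ _ b Λ α β μ M Q hb hΛ hO
  obtain ⟨hpos, hcv⟩ := hCVL k K b Λ α β μ M Q hb hΛ hO
  have hM0 : ix M ≠ 0 :=
    (hIXL k b M ⊤ hb hO.bM top_ne_bot (by rw [top_sup_eq])).1
  refine ⟨hM0, ?_⟩
  intro u x hu ex
  obtain ⟨_, _, h3⟩ := hNTP k K
  have h2 : nm (Ideal.span {x}) = (∏ v : Pl k, rv v μ) * ∏ v : Pl k, rv v (val Q u : k) := by
    have e1 : nm (Ideal.span {x}) = |((Algebra.norm ℚ (x : K) : ℚ) : ℝ)| := by
      unfold nm
      rw [Ideal.absNorm_span_singleton, Nat.cast_natAbs, ← Algebra.coe_norm_int]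
      simp
    rw [e1, h3 (x : K), ex, hO.nrm, ← Finset.prod_mul_distrib]
    refine Finset.prod_congr rfl fun v _ => map_mul _ _ _
  have hμ : 0 < ∏ v : Pl k, rv v μ := Finset.prod_pos fun v _ => hO.pos v
  have hds : 0 < ∏ v : Pl k, Real.sqrt (rv v (dsc Q : k)) :=
    Finset.prod_pos fun v _ => Real.sqrt_pos.mpr (hpos v).2
  have hds2 : (∏ v : Pl k, Real.sqrt (rv v (dsc Q : k))) ^ 2 = ∏ v : Pl k, rv v (dsc Q : k) := by
    rw [← Finset.prod_pow]
    exact Finset.prod_congr rfl fun v _ => Real.sq_sqrt (hpos v).2.le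
  have hd : 0 < |(discr K : ℝ)| := abs_pos.mpr (by exact_mod_cast discr_ne_zero K)
  have hk : 0 < (dk k : ℝ) := by
    have : dk k ≠ 0 := Int.natAbs_ne_zero.mpr (discr_ne_zero k)
    exact_mod_cast Nat.pos_of_ne_zero this
  have hm : (0 : ℝ) < ix M := by exact_mod_cast Nat.pos_of_ne_zero hM0
  have hL : (0 : ℝ) < ixs Λ := by exact_mod_cast Nat.pos_of_ne_zero hΛ
  obtain ⟨_, hq1, _⟩ := hQNV k Q u hpos
  rw [hq1]
  rw [Finset.prod_div_distrib]
  set p : ℝ := ∏ v : Pl k, rv v μ with hp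
  set q : ℝ := ∏ v : Pl k, rv v (val Q u : k) with hq
  set d : ℝ := ∏ v : Pl k, Real.sqrt (rv v (dsc Q : k)) with hdd
  set D : ℝ := |(discr K : ℝ)| with hD
  rw [← hds2] at hcv
  have hsq : ixs Λ * Real.sqrt D = ix M * dk k * p * d := by
    have e1 : (ixs Λ * Real.sqrt D) ^ 2 = (ix M * dk k * p * d) ^ 2 := by
      rw [mul_pow, Real.sq_sqrt hd.le, hcv]; ring
    exact (pow_left_inj₀ (by positivity) (by positivity) two_ne_zero).mp e1
  have h4 : q / d / (ix M : ℝ) = nm (Ideal.span {x}) * dk k / (ixs Λ * Real.sqrt D) := by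
    rw [h2, hsq]
    field_simp
  rw [← h4]
  push_cast
  rfl

end Pool.Agent.H36.CMC
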